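import Pool.Agent.Y505.MA.P3
import Pool.Agent.TH388.E2F
import Pool.Agent.H801R3.NS.POL

/-!
# Mahler's inequality with a measure of asymmetry: the core
-/

set_option autoImplicit false

open MeasureTheory Set Filter Topology
open scoped ENNReal Pointwise Matrix

namespace Pool.Agent.Y505.MA

open H801NS Pool.Agent.TH251.MP

noncomputable section

variable {m : ℕ} {K : Set (Fin m → ℝ)}

/-- the lower bound `e^(2t-1)/t^2` -/
def gg (t : ℝ) : ℝ := Real.exp (2 * t - 1) / t ^ 2

lemma gg_pos {t : ℝ} (ht : 0 < t) : 0 < gg t := by unfold gg; positivity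

lemma log_gg {t : ℝ} (ht : 0 < t) : Real.log (gg t) = 2 * t - 1 - 2 * Real.log t := by
  unfold gg
  rw [Real.log_div (Real.exp_pos _).ne' (by positivity), Real.log_exp, Real.log_pow]
  push_cast
  ring

/-- admissible weights -/
structure Wt (K : Set (Fin m → ℝ)) (w : ℝ) : Prop where
  pos : 0 < w
  le : w ≤ WW (-K) K
  e2 : ∀ u : ℝ, 1 ≤ w * volume.real (Pool.Agent.TH537.EQ.HU (pol K) u)

/-- the inequality (A1) -/
lemma first (hK : NB K) {a b : ℝ} (ha : Wt K a) (hb : Wt (pol K) b) {t : ℝ}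
    (ht : 1 / 2 ≤ t) (ht1 : t ≤ 1) :
    Real.log a ≤ 2 * t * Real.log (VV K) - (2 * t - 1) * (Real.log m.factorial - Real.log b) +
      m * (1 - 2 * t + 2 * t * Real.log t) := by
  obtain ⟨hL, hLL, -, -, -⟩ := t_POL m K hK
  have hF : (0 : ℝ) < m.factorial := by positivity
  have h1 : ∀ u : ℝ, 0 < u → u < 1 → b⁻¹ ≤ volume.real (Pool.Agent.TH537.EQ.HU K u) := by
    intro u _ _
    have h := hb.e2 u
    rw [hLL] at h
    rw [inv_eq_one_div, div_le_iff₀ hb.pos, mul_comm]
    exact h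
  have h2 := pair3 hK ht ht1 (inv_pos.2 hb.pos) h1
  rw [Real.log_mul hF.ne' (inv_ne_zero hb.pos.ne'), Real.log_inv] at h2
  have h3 := Real.log_le_log ha.pos ha.le
  have e : Real.log m.factorial + -Real.log b = Real.log m.factorial - Real.log b := by ring
  rw [e] at h2
  exact h3.trans h2

lemma alg {a b P Q L M t l : ℝ} (ht : 1 / 2 ≤ t) (ht1 : t ≤ 1)
    (h1 : a ≤ 2 * t * P - (2 * t - 1) * (L - b) + M * (1 - 2 * t + 2 * t * l))
    (h2 : b ≤ 2 * t * Q - (2 * t - 1) * (L - a) + M * (1 - 2 * t + 2 * t * l))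
    (h3 : - (M * l) + L - P ≤ b) : M * (2 * t - 1 - 2 * l) ≤ P + Q - L := by
  have e1 := mul_le_mul_of_nonneg_left h1 (by linarith : (0:ℝ) ≤ 2 * t - 1)
  have e2 := mul_le_mul_of_nonneg_left h3 (by nlinarith : (0:ℝ) ≤ 4 * t * (1 - t))
  have e3 : 2 * t * (M * (2 * t - 1 - 2 * l)) ≤ 2 * t * (P + Q - L) := by nlinarith
  exact le_of_mul_le_mul_left e3 (by linarith)

/-- **the core** -/
theorem core (hK : NB K) {a b : ℝ} (ha : Wt K a) (hb : Wt (pol K) b) {t : ℝ}
    (ht : 1 / 2 ≤ t) (ht1 : t ≤ 1) (h : 1 ≤ b * (t ^ m * volume.real K)) :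
    gg t ^ m ≤ m.factorial * (volume.real K * volume.real (pol K)) := by
  obtain ⟨hL, hLL, -, -, -⟩ := t_POL m K hK
  have ht0 : 0 < t := by linarith
  have hF : (0 : ℝ) < m.factorial := by positivity
  have hvK := vol_pos hK
  have hvL := vol_pos hL
  have ha' : Wt (pol (pol K)) a := by rw [hLL]; exact ha
  have h1 := first hK ha hb ht ht1
  have h2 := first hL hb ha' ht ht1
  have h3 := Real.log_le_log (by norm_num) h
  rw [Real.log_one, Real.log_mul hb.pos.ne' (by positivity), Real.log_mul (by positivity) hvK.ne',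
    Real.log_pow] at h3
  have e1 : Real.log (VV K) = Real.log m.factorial + Real.log (volume.real K) := by
    unfold VV
    rw [Real.log_mul hF.ne' hvK.ne']
  have e2 : Real.log (VV (pol K)) = Real.log m.factorial + Real.log (volume.real (pol K)) := by
    unfold VV
    rw [Real.log_mul hF.ne' hvL.ne']
  have h4 := alg ht ht1 h1 h2 (by rw [e1]; linarith)
  have h5 : Real.log (gg t ^ m) ≤
      Real.log (m.factorial * (volume.real K * volume.real (pol K))) := by
    rw [Real.log_pow, log_gg ht0, Real.log_mul hF.ne' (by positivity),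
      Real.log_mul hvK.ne' hvL.ne']
    rw [e1, e2] at h4
    linarith
  exact (Real.log_le_log_iff (pow_pos (gg_pos ht0) m) (by positivity)).1 h5

/-- the weight `m! 2^(-m) |K ∩ -K|` -/
def w1 (K : Set (Fin m → ℝ)) : ℝ := ((2 : ℝ) ^ m)⁻¹ * (m.factorial * volume.real (K ∩ -K))

lemma wt1 (hK : NB K) : Wt K (w1 K) := by
  have hK' := nb_neg hK
  have hI : NB (K ∩ -K) := nb_inter hK hK'
  have hv := vol_pos hI
  refine ⟨by unfold w1; positivity, ?_, fun u => ?_⟩
  · have h := WW_ge hK' hK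
    unfold VV at h
    rw [inter_comm] at h
    exact h
  · have h := Pool.Agent.TH388.E2.e2F hK u
    unfold w1
    rw [mul_assoc, inv_mul_eq_div, one_le_div (by positivity)]
    calc (2:ℝ) ^ m ≤ _ := h
      _ = _ := by
        rw [← mul_assoc]
        rfl

lemma diff_NB (hK : NB K) : NB (K - K) := by
  refine ⟨?_, hK.conv.sub hK.conv, ?_⟩
  · have h := (hK.comp.prod hK.comp).image (continuous_fst.sub continuous_snd)
    have e : (fun z : (Fin m → ℝ) × (Fin m → ℝ) => z.1 - z.2) '' (K ×ˢ K) = K - K :=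
      Set.sub_image_prod
    rw [← e]
    exact h
  · have h0 : (0 : Fin m → ℝ) ∈ K := interior_subset hK.zero
    have h1 : K ⊆ K - K := fun x hx => ⟨x, hx, 0, h0, sub_zero x⟩
    exact interior_mono h1 hK.zero

/-- the symmetric Mahler inequality for `K - K` -/
lemma sym_diff (hK : NB K) : (4:ℝ) ^ m ≤ m.factorial * (volume.real (K - K) *
    volume.real (pol (K - K))) := by
  have hD := diff_NB hK
  obtain ⟨hP, -, -, -, -⟩ := t_POL m _ hD
  have hneg : -(K - K) = K - K := by
    rw [neg_sub]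
  have hneg' : -(pol (K - K)) = pol (K - K) := by
    ext y
    constructor
    · intro hy x hx
      have hx' : -x ∈ K - K := by
        rw [← hneg]
        exact Set.neg_mem_neg.2 hx
      have h := hy (-x) hx'
      simpa using h
    · intro hy x hx
      have hx' : -x ∈ K - K := by
        rw [← hneg]
        exact Set.neg_mem_neg.2 hx
      have h := hy (-x) hx'
      simpa using h
  have h := Pool.Agent.TH388.E2.e2F hD (1 / 2)
  rw [hneg, inter_self] at h
  have e1 : ((1 - 1 / 2 : ℝ)) • pol (K - K) ∪ (-(1 / 2) : ℝ) • pol (K - K) =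
      (1 / 2 : ℝ) • pol (K - K) := by
    have e2 : (-(1 / 2) : ℝ) • pol (K - K) = (1 / 2 : ℝ) • pol (K - K) := by
      rw [neg_smul_set, ← smul_set_neg, hneg']
    rw [e2]
    norm_num
  rw [e1, (hP.conv.smul _).convexHull_eq, vol_smul _ (by norm_num : (0:ℝ) < 1 / 2)] at h
  have h2 : (0:ℝ) < 2 ^ m := by positivity
  have h3 : (4:ℝ) ^ m = 2 ^ m * 2 ^ m := by rw [← mul_pow]; norm_num
  have h4 : (1 / 2 : ℝ) ^ m * 2 ^ m = 1 := by rw [← mul_pow]; norm_num
  calc (4:ℝ) ^ m = 2 ^ m * 2 ^ m := h3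
    _ ≤ (m.factorial * (volume.real (K - K) * ((1 / 2) ^ m * volume.real (pol (K - K))))) * 2 ^ m :=
        mul_le_mul_of_nonneg_right h h2.le
    _ = m.factorial * (volume.real (K - K) * volume.real (pol (K - K))) *
        ((1 / 2) ^ m * 2 ^ m) := by ring
    _ = _ := by rw [h4, mul_one]

/-- the weight `m! |(K - K)°|` of the polar body -/
def w2 (K : Set (Fin m → ℝ)) : ℝ := m.factorial * volume.real (pol (K - K))

lemma pol_diff_HH (hK : NB K) : pol (K - K) ⊆ Pool.Agent.TH537.EQ.HH (pol K) := by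
  intro y hy
  have h0 : (0 : Fin m → ℝ) ∈ K := interior_subset hK.zero
  have hc : Continuous fun x : Fin m → ℝ => x ⬝ᵥ y := by
    unfold dotProduct
    fun_prop
  obtain ⟨x0, hx0, hmin⟩ := hK.comp.exists_isMinOn ⟨0, h0⟩ hc.continuousOn
  have hmin' : ∀ x ∈ K, x0 ⬝ᵥ y ≤ x ⬝ᵥ y := fun x hx => hmin hx
  have hb : x0 ⬝ᵥ y ≤ 0 := by
    have := hmin' 0 h0
    simpa using this
  have ha : ∀ x ∈ K, x ⬝ᵥ y ≤ 1 + x0 ⬝ᵥ y := by
    intro x hx
    have h := hy (x - x0) ⟨x, hx, x0, hx0, rfl⟩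
    rw [sub_dotProduct] at h
    linarith
  have ha0 : 0 ≤ 1 + x0 ⬝ᵥ y := by
    have := ha 0 h0
    simpa using this
  show gauge (pol K) y + gauge (pol K) (-y) ≤ 1
  refine le_of_forall_pos_le_add fun δ hδ => ?_
  have g1 : gauge (pol K) y ≤ 1 + x0 ⬝ᵥ y + δ / 2 := by
    refine gauge_le_of_mem (by linarith) ?_
    rw [mem_smul_set_iff_inv_smul_mem₀ (by linarith : 1 + x0 ⬝ᵥ y + δ / 2 ≠ 0)]
    intro x hx
    rw [dotProduct_smul, smul_eq_mul, inv_mul_le_iff₀ (by linarith)]
    linarith [ha x hx]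
  have g2 : gauge (pol K) (-y) ≤ -(x0 ⬝ᵥ y) + δ / 2 := by
    refine gauge_le_of_mem (by linarith) ?_
    rw [mem_smul_set_iff_inv_smul_mem₀ (by linarith : -(x0 ⬝ᵥ y) + δ / 2 ≠ 0)]
    intro x hx
    rw [dotProduct_smul, smul_eq_mul, inv_mul_le_iff₀ (by linarith), dotProduct_neg]
    linarith [hmin' x hx]
  linarith

lemma wt2 (hK : NB K) : Wt (pol K) (w2 K) := by
  obtain ⟨hL, hLL, -, -, -⟩ := t_POL m K hK
  have hD := diff_NB hK
  obtain ⟨hP, -, -, -, -⟩ := t_POL m _ hD
  have hv := vol_pos hP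
  have hF : (0 : ℝ) < m.factorial := by positivity
  refine ⟨by unfold w2; positivity, ?_, fun u => ?_⟩
  · refine le_trans ?_ (WW_ge_HH hL)
    exact VV_mono (pol_diff_HH hK) (nb_HH hL)
  · have h := Pool.Agent.TH388.E2.e2F hL u
    have h1 : pol K ∩ -pol K ⊆ (2:ℝ) • pol (K - K) := by
      rintro y ⟨hy1, hy2⟩
      rw [mem_smul_set_iff_inv_smul_mem₀ (by norm_num)]
      rintro _ ⟨x, hx, x', hx', rfl⟩
      have g1 := hy1 x hx
      have g2 : x' ⬝ᵥ (-y) ≤ 1 := hy2 x' hx'
      rw [dotProduct_neg] at g2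
      rw [dotProduct_smul, smul_eq_mul, inv_mul_le_iff₀ (by norm_num), sub_dotProduct]
      linarith
    have h2 := measureReal_mono h1 ((hP.comp.smul (2:ℝ)).measure_lt_top (μ := volume)).ne
    rw [vol_smul _ (by norm_num : (0:ℝ) < 2)] at h2
    have h3 : (0:ℝ) ≤ volume.real (Pool.Agent.TH537.EQ.HU (pol (pol K)) u) := measureReal_nonneg
    have h4 : (2:ℝ) ^ m ≤ 2 ^ m * (w2 K * volume.real (Pool.Agent.TH537.EQ.HU (pol (pol K)) u)) := by
      calc (2:ℝ) ^ m ≤ m.factorial * (volume.real (pol K ∩ -pol K) *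
            volume.real (Pool.Agent.TH537.EQ.HU (pol (pol K)) u)) := h
        _ ≤ m.factorial * ((2 ^ m * volume.real (pol (K - K))) *
            volume.real (Pool.Agent.TH537.EQ.HU (pol (pol K)) u)) := by gcongr
        _ = _ := by unfold w2; ring
    exact le_of_mul_le_mul_left (by rw [mul_one]; exact h4) (by positivity : (0:ℝ) < 2 ^ m)

/-- **difference body** -/
theorem of_diff (hK : NB K) {t : ℝ} (ht : 1 / 2 ≤ t) (ht1 : t ≤ 1)
    (h : volume.real (K - K) ≤ (4 * t) ^ m * volume.real K) :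
    gg t ^ m ≤ m.factorial * (volume.real K * volume.real (pol K)) := by
  refine core hK (wt1 hK) (wt2 hK) ht ht1 ?_
  have h1 := sym_diff hK
  have h2 : (0:ℝ) ≤ m.factorial * volume.real (pol (K - K)) := by
    have : (0:ℝ) ≤ volume.real (pol (K - K)) := measureReal_nonneg
    positivity
  have h3 : (4:ℝ) ^ m ≤ 4 ^ m * (w2 K * (t ^ m * volume.real K)) := by
    calc (4:ℝ) ^ m ≤ m.factorial * (volume.real (K - K) * volume.real (pol (K - K))) := h1
      _ = (m.factorial * volume.real (pol (K - K))) * volume.real (K - K) := by ring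
      _ ≤ (m.factorial * volume.real (pol (K - K))) * ((4 * t) ^ m * volume.real K) :=
          mul_le_mul_of_nonneg_left h h2
      _ = _ := by unfold w2; rw [mul_pow]; ring
  exact le_of_mul_le_mul_left (by rw [mul_one]; exact h3) (by positivity : (0:ℝ) < 4 ^ m)

/-- **the hulls of `(1-u) K` and `-u K`** -/
theorem of_hull (hK : NB K) {t : ℝ} (ht : 1 / 2 ≤ t) (ht1 : t ≤ 1) {u : ℝ}
    (h : volume.real (convexHull ℝ ((1 - u) • K ∪ (-u) • K)) ≤ t ^ m * volume.real K) :
    gg t ^ m ≤ m.factorial * (volume.real K * volume.real (pol K)) := by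
  obtain ⟨hL, hLL, -, -, -⟩ := t_POL m K hK
  refine core hK (wt1 hK) (wt1 hL) ht ht1 ?_
  have h1 := (wt1 hL).e2 u
  rw [hLL] at h1
  exact h1.trans (mul_le_mul_of_nonneg_left h (wt1 hL).pos.le)

/-- `K ∩ -K`, `t > 1/2` -/
theorem of_inter_aux (hK : NB K) {t : ℝ} (ht : 1 / 2 < t) (ht1 : t ≤ 1)
    (h : (2 * t * Real.exp (1 - 2 * t)) ^ m * volume.real K ≤ volume.real (K ∩ -K)) :
    gg t ^ m ≤ m.factorial * (volume.real K * volume.real (pol K)) := by
  obtain ⟨hL, hLL, -, -, -⟩ := t_POL m K hK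
  have ht0 : 0 < t := by linarith
  have hvK := vol_pos hK
  have hF : (0 : ℝ) < m.factorial := by positivity
  refine core hK (wt1 hK) (wt1 hL) ht.le ht1 ?_
  have h1 := first hK (wt1 hK) (wt1 hL) ht.le ht1
  have hb := (wt1 hL).pos
  have h2 : (t * Real.exp (1 - 2 * t)) ^ m * (m.factorial * volume.real K) ≤ w1 K := by
    unfold w1
    have e : (t * Real.exp (1 - 2 * t)) ^ m = ((2:ℝ) ^ m)⁻¹ * (2 * t * Real.exp (1 - 2 * t)) ^ m := by
      rw [← inv_pow, ← mul_pow]
      congr 1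
      ring
    rw [e]
    have h3 : (0:ℝ) ≤ ((2:ℝ) ^ m)⁻¹ * m.factorial := by positivity
    calc ((2:ℝ) ^ m)⁻¹ * (2 * t * Real.exp (1 - 2 * t)) ^ m * (m.factorial * volume.real K) =
        (((2:ℝ) ^ m)⁻¹ * m.factorial) * ((2 * t * Real.exp (1 - 2 * t)) ^ m * volume.real K) := by
          ring
      _ ≤ (((2:ℝ) ^ m)⁻¹ * m.factorial) * volume.real (K ∩ -K) := mul_le_mul_of_nonneg_left h h3
      _ = _ := by ring
  have h3 := Real.log_le_log (by positivity) h2
  rw [Real.log_mul (by positivity) (by positivity), Real.log_pow, Real.log_mul ht0.ne'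
    (Real.exp_pos _).ne', Real.log_exp] at h3
  have e1 : Real.log (VV K) = Real.log m.factorial + Real.log (volume.real K) := by
    unfold VV
    rw [Real.log_mul hF.ne' hvK.ne']
  have e2 : Real.log (m.factorial * volume.real K) = Real.log (VV K) := rfl
  rw [e2] at h3
  have h4 : (2 * t - 1) * (-(m * Real.log t) - Real.log (volume.real K)) ≤
      (2 * t - 1) * Real.log (w1 (pol K)) := by
    rw [e1] at h1 h3
    nlinarith
  have h5 := le_of_mul_le_mul_left h4 (by linarith : 0 < 2 * t - 1)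
  have h6 : 0 ≤ Real.log (w1 (pol K) * (t ^ m * volume.real K)) := by
    rw [Real.log_mul hb.ne' (by positivity), Real.log_mul (by positivity) hvK.ne', Real.log_pow]
    linarith
  exact (Real.log_nonneg_iff (by positivity)).1 h6

lemma gg_cont : ContinuousOn gg (Ioi 0) := by
  unfold gg
  refine ContinuousOn.div (by fun_prop) (by fun_prop) fun x hx => ?_
  have : (0:ℝ) < x := hx
  positivity

/-- **the intersection `K ∩ -K`** -/
theorem of_inter (hK : NB K) {t : ℝ} (ht : 1 / 2 ≤ t) (ht1 : t ≤ 1)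
    (h : (2 * t * Real.exp (1 - 2 * t)) ^ m * volume.real K ≤ volume.real (K ∩ -K)) :
    gg t ^ m ≤ m.factorial * (volume.real K * volume.real (pol K)) := by
  rcases ht.eq_or_lt with rfl | ht'
  · -- the limit `t → 1/2`
    have hvK := vol_pos hK
    norm_num at h
    have h1 : ∀ s ∈ Ioo (1 / 2 : ℝ) 1,
        gg s ^ m ≤ m.factorial * (volume.real K * volume.real (pol K)) := by
      intro s hs
      refine of_inter_aux hK hs.1 hs.2.le (le_trans ?_ h)
      have hs0 : 0 < s := by linarith [hs.1]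
      have h2 : 2 * s * Real.exp (1 - 2 * s) ≤ 1 := by
        have h3 := Real.add_one_le_exp (2 * s - 1)
        rw [sub_add_cancel] at h3
        calc 2 * s * Real.exp (1 - 2 * s) ≤ Real.exp (2 * s - 1) * Real.exp (1 - 2 * s) := by gcongr
          _ = 1 := by rw [← Real.exp_add]; simp
      calc (2 * s * Real.exp (1 - 2 * s)) ^ m * volume.real K ≤ 1 * volume.real K := by
            refine mul_le_mul_of_nonneg_right (pow_le_one₀ (by positivity) h2) hvK.le
        _ = _ := one_mul _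
    have hlim : Tendsto (fun s => gg s ^ m) (𝓝[>] (1 / 2 : ℝ)) (𝓝 (gg (1 / 2) ^ m)) := by
      have h2 : ContinuousAt gg (1 / 2) := gg_cont.continuousAt (Ioi_mem_nhds (by norm_num))
      exact (h2.pow m).mono_left nhdsWithin_le_nhds
    refine le_of_tendsto hlim ?_
    filter_upwards [Ioo_mem_nhdsGT (by norm_num : (1 / 2 : ℝ) < 1)] with s hs
    exact h1 s hs
  · exact of_inter_aux hK ht' ht1 h

end

end Pool.Agent.Y505.MA
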