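import Pool.Agent.TH251.MP.INB
import Pool.Agent.TH264.MP.Step
import Pool.Agent.TH264.MP.PLN

/-!
# The averaged inequality for `K`, `-K` with a three-piece lower bound
-/

set_option autoImplicit false

open MeasureTheory Set Filter Topology
open scoped ENNReal Pointwise

namespace Pool.Agent.Y505.MA

open H801NS Pool.Agent.TH251.MP

noncomputable section

variable {m : ℕ} {K : Set (Fin m → ℝ)}

lemma VVn (K : Set (Fin m → ℝ)) : VV (-K) = VV K := by
  unfold VV
  rw [vol_neg]

/-- `F ≥ log V` -/
lemma FF_ge1 (hK : NB K) {z : ℝ} : Real.log (VV K) ≤ FF (-K) K z := by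
  unfold FF
  have hK' := nb_neg hK
  refine Real.log_le_log (VV_pos hK) (VV_mono ?_ (hul_nb hK' hK _))
  unfold hul
  exact subset_union_left.trans (subset_convexHull ℝ _)

/-- `F ≥ log V + m log (1 - z) - m log z` -/
lemma FF_ge2 (hK : NB K) {z : ℝ} (h0 : 0 < z) (h1 : z < 1) :
    Real.log (VV K) + m * (Real.log (1 - z) - Real.log z) ≤ FF (-K) K z := by
  have hK' := nb_neg hK
  have hc := inv_sub_pos h0 h1
  unfold FF
  have h2 : (z⁻¹ - 1) • (-K) ⊆ hul (-K) K (z⁻¹ - 1) := by
    unfold hul
    exact subset_union_right.trans (subset_convexHull ℝ _)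
  have h3 : volume.real ((z⁻¹ - 1) • (-K)) = (z⁻¹ - 1) ^ m * volume.real K := by
    rw [vol_smul _ hc, vol_neg]
  have h4 := measureReal_mono h2 ((hul_nb hK' hK (z⁻¹ - 1)).comp.measure_lt_top (μ := volume)).ne
  rw [h3] at h4
  have hF : (0 : ℝ) < m.factorial := by positivity
  have hVK := VV_pos hK
  have h5 : (z⁻¹ - 1) ^ m * VV K ≤ VV (hul (-K) K (z⁻¹ - 1)) := by
    unfold VV
    nlinarith [mul_le_mul_of_nonneg_left h4 hF.le]
  have h6 := Real.log_le_log (by positivity) h5
  rw [Real.log_mul (by positivity) hVK.ne', Real.log_pow] at h6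
  have h7 : z⁻¹ - 1 = (1 - z) / z := by field_simp
  have h8 : Real.log (z⁻¹ - 1) = Real.log (1 - z) - Real.log z := by
    rw [h7, Real.log_div (by linarith) h0.ne']
  rw [h8] at h6
  linarith

/-- `F ≥ log (m! s) - m log z` -/
lemma FF_ge3 (hK : NB K) {s : ℝ} (hs : 0 < s) {z : ℝ} (hz0 : 0 < z) (hz1 : z < 1)
    (hsv : s ≤ volume.real (Pool.Agent.TH537.EQ.HU K (1 - z))) :
    Real.log (m.factorial * s) - m * Real.log z ≤ FF (-K) K z := by
  have hK' := nb_neg hK
  have hF : (0 : ℝ) < m.factorial := by positivity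
  have hc := inv_sub_pos hz0 hz1
  have e1 := hul_eq K hc
  have e2 : (z⁻¹ - 1) / (1 + (z⁻¹ - 1)) = 1 - z := by
    have := hz0.ne'
    field_simp
    ring
  have e3 : (1 + (z⁻¹ - 1))⁻¹ = z := by rw [add_sub_cancel, inv_inv]
  rw [e2, e3] at e1
  unfold Pool.Agent.TH537.EQ.HU at hsv
  rw [e1, vol_smul _ hz0] at hsv
  unfold FF VV
  have hv := vol_pos (hul_nb hK' hK (z⁻¹ - 1))
  have h3 : m.factorial * s ≤ z ^ m * (m.factorial * volume.real (hul (-K) K (z⁻¹ - 1))) := by
    nlinarith [mul_le_mul_of_nonneg_left hsv hF.le]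
  have h4 := Real.log_le_log (by positivity) h3
  rw [Real.log_mul (pow_pos hz0 m).ne' (by positivity), Real.log_pow] at h4
  linarith

/-- the elementary integral on `[x, y]` -/
lemma int_log1 {V x y : ℝ} (hx : 0 < x) (hxy : x ≤ y) (hy : y < 1) (hK : NB K)
    (hV : V = Real.log (VV K)) :
    (y - x) * V + m * ((1 - x) * Real.log (1 - x) - (1 - y) * Real.log (1 - y) - (1 - x) + (1 - y))
      - m * (y * Real.log y - x * Real.log x - y + x) ≤ ∫ z in x..y, FF (-K) K z := by
  have hK' := nb_neg hK
  have h0 : (0:ℝ) ∉ uIcc x y := by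
    rw [uIcc_of_le hxy]
    exact fun h => absurd h.1 (not_le.2 hx)
  have h0' : (0:ℝ) ∉ uIcc (1 - y) (1 - x) := by
    rw [uIcc_of_le (by linarith)]
    exact fun h => absurd h.1 (not_le.2 (by linarith))
  have hI1 : IntervalIntegrable (fun z => Real.log z) volume x y :=
    intervalIntegral.intervalIntegrable_log h0
  have hI2 : IntervalIntegrable (fun z => Real.log (1 - z)) volume x y := by
    refine ContinuousOn.intervalIntegrable ?_
    refine ContinuousOn.log (by fun_prop) ?_
    intro z hz
    rw [uIcc_of_le hxy] at hz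
    have := hz.2
    have : 0 < 1 - z := by linarith
    exact this.ne'
  have hI : IntervalIntegrable (fun z => V + m * (Real.log (1 - z) - Real.log z)) volume x y :=
    intervalIntegrable_const.add ((hI2.sub hI1).const_mul _)
  have h1 := intervalIntegral.integral_mono_on_of_le_Ioo hxy hI (FF_int hK' hK hx hxy hy)
    (fun z hz => by
      rw [hV]
      exact FF_ge2 hK (hx.trans hz.1) (hz.2.trans hy))
  refine le_trans (le_of_eq ?_) h1
  rw [intervalIntegral.integral_add intervalIntegrable_const ((hI2.sub hI1).const_mul _),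
    intervalIntegral.integral_const, intervalIntegral.integral_const_mul,
    intervalIntegral.integral_sub hI2 hI1, integral_log,
    intervalIntegral.integral_comp_sub_left (fun z => Real.log z) 1, integral_log, smul_eq_mul]
  ring

/-- the constant piece -/
lemma int_const {V x y : ℝ} (hx : 0 < x) (hxy : x ≤ y) (hy : y < 1) (hK : NB K)
    (hV : V = Real.log (VV K)) :
    (y - x) * V ≤ ∫ z in x..y, FF (-K) K z := by
  have hK' := nb_neg hK
  have h1 := intervalIntegral.integral_mono_on_of_le_Ioo hxy
    (intervalIntegrable_const (c := V)) (FF_int hK' hK hx hxy hy)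
    (fun z _ => by rw [hV]; exact FF_ge1 hK)
  refine le_trans (le_of_eq ?_) h1
  rw [intervalIntegral.integral_const, smul_eq_mul]

/-- the inequality for `1/2 < t < 1` -/
theorem pair3_aux (hK : NB K) {t s : ℝ} (ht : 1 / 2 < t) (ht1 : t < 1) (hs : 0 < s)
    (h : ∀ u : ℝ, 0 < u → u < 1 → s ≤ volume.real (Pool.Agent.TH537.EQ.HU K u)) :
    Real.log (WW (-K) K) ≤ 2 * t * Real.log (VV K) - (2 * t - 1) * Real.log (m.factorial * s) +
      m * (1 - 2 * t + 2 * t * Real.log t) := by
  have hK' := nb_neg hK
  set V := Real.log (VV K) with hV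
  set L := Real.log (m.factorial * s) with hL
  have key : ∀ e : ℝ, 0 < e → e < 1 - t → Real.log (WW (-K) K) +
      (((1 - t - e) * V + m * ((1 - e) * Real.log (1 - e) - t * Real.log t - (1 - e) + t)
      - m * ((1 - t) * Real.log (1 - t) - e * Real.log e - (1 - t) + e)) +
      ((2 * t - 1) * L - m * (t * Real.log t - (1 - t) * Real.log (1 - t) - t + (1 - t))) +
      (1 - e - t) * V) ≤
      (1 - e) * V + m * (e * Real.log e) + (1 - e) * V := by
    intro e he het
    have h3 := pair_int Pool.Agent.TH264.MP.step Pool.Agent.TH264.MP.pln hK' hK he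
      (by linarith : e < 1 - e) (by linarith)
    rw [← intervalIntegral.integral_add_adjacent_intervals
      (FF_int hK' hK he (by linarith : e ≤ t) (by linarith))
      (FF_int hK' hK (by linarith : 0 < t) (by linarith : t ≤ 1 - e) (by linarith)),
      ← intervalIntegral.integral_add_adjacent_intervals
      (FF_int hK' hK he (by linarith : e ≤ 1 - t) (by linarith))
      (FF_int hK' hK (by linarith : 0 < 1 - t) (by linarith : 1 - t ≤ t) (by linarith))] at h3
    have h4 := int_log1 he (by linarith : e ≤ 1 - t) (by linarith) hK hV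
    have h5 := int_low (L := L) (by linarith : 0 < 1 - t) (by linarith : 1 - t ≤ t)
      ht1 hK' hK (fun z hz => FF_ge3 hK hs (by linarith [hz.1]) (by linarith [hz.2])
        (h (1 - z) (by linarith [hz.2]) (by linarith [hz.1])))
    have h6 := int_const (by linarith : 0 < t) (by linarith : t ≤ 1 - e) (by linarith) hK hV
    have h7 : (1 - e) * (m * Real.log (1 - e)) ≤ 0 := by
      have : Real.log (1 - e) ≤ 0 := Real.log_nonpos (by linarith) (by linarith)
      exact mul_nonpos_of_nonneg_of_nonpos (by linarith)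
        (mul_nonpos_of_nonneg_of_nonpos (by positivity) this)
    rw [VVn, mul_add, ← hV] at h3
    have e1 : 1 - (1 - t) = t := by ring
    rw [e1] at h4
    have e2 : t - (1 - t) = 2 * t - 1 := by ring
    rw [e2] at h5
    linarith
  have hc1 : Continuous fun e : ℝ => Real.log (WW (-K) K) +
      (((1 - t - e) * V + m * ((1 - e) * Real.log (1 - e) - t * Real.log t - (1 - e) + t)
      - m * ((1 - t) * Real.log (1 - t) - e * Real.log e - (1 - t) + e)) +
      ((2 * t - 1) * L - m * (t * Real.log t - (1 - t) * Real.log (1 - t) - t + (1 - t))) +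
      (1 - e - t) * V) := by
    have h3 : Continuous fun e : ℝ => (1 - e) * Real.log (1 - e) :=
      Real.continuous_mul_log.comp (continuous_const.sub continuous_id)
    have h4 := Real.continuous_mul_log
    fun_prop
  have hc2 : Continuous fun e : ℝ => (1 - e) * V + m * (e * Real.log e) + (1 - e) * V := by
    have h4 := Real.continuous_mul_log
    fun_prop
  have hfin := le_of_tendsto_of_tendsto (b := 𝓝[>] (0:ℝ))
    ((hc1.tendsto 0).mono_left nhdsWithin_le_nhds) ((hc2.tendsto 0).mono_left nhdsWithin_le_nhds) (by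
      filter_upwards [Ioo_mem_nhdsGT (by linarith : (0:ℝ) < 1 - t)] with e he
      exact key e he.1 he.2)
  simp only [sub_zero, one_mul, Real.log_one, zero_mul, mul_zero, add_zero, zero_sub] at hfin
  linarith

/-- **the three-piece inequality** for `1/2 ≤ t ≤ 1` -/
theorem pair3 (hK : NB K) {t s : ℝ} (ht : 1 / 2 ≤ t) (ht1 : t ≤ 1) (hs : 0 < s)
    (h : ∀ u : ℝ, 0 < u → u < 1 → s ≤ volume.real (Pool.Agent.TH537.EQ.HU K u)) :
    Real.log (WW (-K) K) ≤ 2 * t * Real.log (VV K) - (2 * t - 1) * Real.log (m.factorial * s) +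
      m * (1 - 2 * t + 2 * t * Real.log t) := by
  set f : ℝ → ℝ := fun t => 2 * t * Real.log (VV K) - (2 * t - 1) * Real.log (m.factorial * s) +
      m * (1 - 2 * t + 2 * t * Real.log t) with hf
  have hc : Continuous f := by
    have h4 : Continuous fun t : ℝ => 2 * t * Real.log t := by
      have := (continuous_const (y := (2:ℝ))).mul Real.continuous_mul_log
      refine this.congr fun x => ?_
      show 2 * (x * Real.log x) = 2 * x * Real.log x
      ring
    rw [hf]
    fun_prop
  have hcl : IsClosed {t : ℝ | Real.log (WW (-K) K) ≤ f t} := isClosed_le continuous_const hc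
  have hsub : Ioo (1 / 2 : ℝ) 1 ⊆ {t : ℝ | Real.log (WW (-K) K) ≤ f t} := fun t ht =>
    pair3_aux hK ht.1 ht.2 hs h
  have h2 := closure_minimal hsub hcl
  rw [closure_Ioo (by norm_num)] at h2
  exact h2 ⟨ht, ht1⟩

end

end Pool.Agent.Y505.MA
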